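import Mathlib

/-!
A set `E` of positive reals with `E - E = ℝ` for which `{2 x - y : x, y ∈ E}` has measure zero.

The set `A = {1, 7, 13, 14, 16, 17}` of residues modulo `20` has `A - A = ℤ/20`, but the three consecutive residues
`2, 3, 4` are not of the form `2 a - b` with `a, b ∈ A`. Let `E` be the set of the positive reals `x` such that for
every `i ≥ 0` the fractional part of `80 ^ i x` lies in one of the intervals `[a / 20, (a + 1) / 20)`, `a ∈ A`. Then the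
fractional part of `80 ^ i (2 x - y)` is never in `[3 / 20, 4 / 20)` for `x, y ∈ E`, so that `2 E - E` is a null set,
while `E - E = ℝ`, since the base `80` expansion of a suitable `x` can be chosen digit by digit.
-/

set_option autoImplicit false

namespace Pool.Agent.Results.MP_0f2923_nt.NullTwoXMinusY

open MeasureTheory Set
open scoped Pointwise

/-- the set of residues modulo `20` -/
def A : Finset ℕ := {1, 7, 13, 14, 16, 17}

/-- the condition on one fractional part -/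
def Good (t : ℝ) : Prop := ∃ a ∈ A, (a : ℝ) / 20 ≤ Int.fract t ∧ Int.fract t < ((a : ℝ) + 1) / 20

/-- the set `E` -/
def E : Set ℝ := {x | 0 < x ∧ ∀ i : ℕ, Good (80 ^ i * x)}

/-- the set of the reals none of whose multiples by powers of `80` has fractional part in `[3/20, 4/20)` -/
def S : Set ℝ := {y | ∀ i : ℕ, ¬ ((3 : ℝ) / 20 ≤ Int.fract (80 ^ i * y) ∧ Int.fract (80 ^ i * y) < 4 / 20)}

theorem phi_subset {x y : ℝ} (hx : x ∈ E) (hy : y ∈ E) : 2 * x - y ∈ S := by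
  intro i ⟨h1, h2⟩
  obtain ⟨a, ha, ha1, ha2⟩ := hx.2 i
  obtain ⟨b, hb, hb1, hb2⟩ := hy.2 i
  have e1 := Int.floor_add_fract (80 ^ i * x : ℝ)
  have e2 := Int.floor_add_fract (80 ^ i * y : ℝ)
  have e3 := Int.floor_add_fract (80 ^ i * (2 * x - y) : ℝ)
  set u := Int.fract (80 ^ i * x : ℝ)
  set v := Int.fract (80 ^ i * y : ℝ)
  set w := Int.fract (80 ^ i * (2 * x - y) : ℝ)
  set p := ⌊(80 ^ i * x : ℝ)⌋
  set q := ⌊(80 ^ i * y : ℝ)⌋
  set r := ⌊(80 ^ i * (2 * x - y) : ℝ)⌋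
  have e4 : (2 * p - q - r : ℝ) = w - 2 * u + v := by
    have : (80 : ℝ) ^ i * (2 * x - y) = 2 * (80 ^ i * x) - 80 ^ i * y := by ring
    rw [this] at e3
    linarith
  obtain ⟨n, hn⟩ : ∃ n : ℤ, n = 2 * p - q - r := ⟨_, rfl⟩
  have e5 : (n : ℝ) = w - 2 * u + v := by
    rw [hn]
    push_cast
    exact e4
  have h3 : ((20 * n : ℤ) : ℝ) < ((4 - 2 * a + b + 1 : ℤ) : ℝ) := by
    push_cast
    rw [e5]
    linarith
  have h4 : ((3 - 2 * a + b - 2 : ℤ) : ℝ) < ((20 * n : ℤ) : ℝ) := by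
    push_cast
    rw [e5]
    linarith
  have h5 : 20 * n < 4 - 2 * a + b + 1 := by exact_mod_cast h3
  have h6 : 3 - 2 * a + b - 2 < 20 * n := by exact_mod_cast h4
  simp only [A, Finset.mem_insert, Finset.mem_singleton] at ha hb
  rcases ha with rfl | rfl | rfl | rfl | rfl | rfl <;>
    rcases hb with rfl | rfl | rfl | rfl | rfl | rfl <;> omega

/-! ### The null set -/

theorem S_add_nat {y : ℝ} (n : ℕ) : y + n ∈ S ↔ y ∈ S := by
  unfold S
  simp only [mem_ofPred_eq]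
  have : ∀ i : ℕ, Int.fract ((80 : ℝ) ^ i * (y + n)) = Int.fract (80 ^ i * y) := by
    intro i
    have : (80 : ℝ) ^ i * (y + n) = 80 ^ i * y + ((80 ^ i * n : ℕ) : ℝ) := by
      push_cast
      ring
    rw [this, Int.fract_add_natCast]
  simp only [this]

theorem S_add_int {y : ℝ} (n : ℤ) : y + n ∈ S ↔ y ∈ S := by
  unfold S
  simp only [mem_ofPred_eq]
  have : ∀ i : ℕ, Int.fract ((80 : ℝ) ^ i * (y + n)) = Int.fract (80 ^ i * y) := by
    intro i
    have : (80 : ℝ) ^ i * (y + n) = 80 ^ i * y + ((80 ^ i * n : ℤ) : ℝ) := by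
      push_cast
      ring
    rw [this, Int.fract_add_intCast]
  simp only [this]

theorem S_mul {y : ℝ} (hy : y ∈ S) : 80 * y ∈ S := by
  intro i
  have := hy (i + 1)
  rw [pow_succ, mul_assoc] at this
  exact this

theorem volume_shift (n : ℤ) : volume (S ∩ Ico (n : ℝ) (n + 1)) = volume (S ∩ Ico (0 : ℝ) 1) := by
  rw [← measure_preimage_add_right volume (n : ℝ) (S ∩ Ico (n : ℝ) (n + 1))]
  congr 1
  ext y
  simp only [mem_preimage, mem_inter_iff, S_add_int, mem_Ico]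
  constructor
  · rintro ⟨h1, h2, h3⟩
    exact ⟨h1, by linarith, by linarith⟩
  · rintro ⟨h1, h2, h3⟩
    exact ⟨h1, by linarith, by linarith⟩

theorem cover : S ∩ Ico (0 : ℝ) 1 ⊆
    ⋃ j ∈ (Finset.range 80).filter (fun j => j / 4 ≠ 3), (fun y : ℝ => 80 * y) ⁻¹' (S ∩ Ico (j : ℝ) (j + 1)) := by
  rintro y ⟨hy, h0, h1⟩
  have h80 : (0 : ℝ) ≤ 80 * y := by linarith
  obtain ⟨j, hj⟩ : ∃ j : ℕ, j = ⌊80 * y⌋₊ := ⟨_, rfl⟩
  have hj1 : (j : ℝ) ≤ 80 * y := by
    rw [hj]
    exact Nat.floor_le h80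
  have hj2 : 80 * y < j + 1 := by
    rw [hj]
    exact Nat.lt_floor_add_one _
  simp only [mem_iUnion, Finset.mem_filter, Finset.mem_range]
  refine ⟨j, ⟨?_, ?_⟩, S_mul hy, hj1, hj2⟩
  · have : (j : ℝ) < 80 := by linarith
    exact_mod_cast this
  · intro h3
    have h4 := hy 0
    apply h4
    rw [pow_zero, one_mul, Int.fract_eq_self.mpr ⟨h0, h1⟩]
    have h5 : 12 ≤ j := by omega
    have h6 : j ≤ 15 := by omega
    have h5' : (12 : ℝ) ≤ j := by exact_mod_cast h5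
    have h6' : (j : ℝ) ≤ 15 := by exact_mod_cast h6
    constructor <;> linarith

theorem volume_unit : volume (S ∩ Ico (0 : ℝ) 1) = 0 := by
  set μ := volume (S ∩ Ico (0 : ℝ) 1) with hμ
  have hfin : μ ≤ 1 := by
    calc μ ≤ volume (Ico (0 : ℝ) 1) := measure_mono inter_subset_right
      _ = 1 := by simp
  have h1 : μ ≤ ∑ j ∈ (Finset.range 80).filter (fun j => j / 4 ≠ 3), ENNReal.ofReal |(80 : ℝ)⁻¹| * μ := by
    calc μ ≤ volume (⋃ j ∈ (Finset.range 80).filter (fun j => j / 4 ≠ 3),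
          (fun y : ℝ => 80 * y) ⁻¹' (S ∩ Ico (j : ℝ) (j + 1))) := measure_mono cover
      _ ≤ ∑ j ∈ (Finset.range 80).filter (fun j => j / 4 ≠ 3),
          volume ((fun y : ℝ => 80 * y) ⁻¹' (S ∩ Ico (j : ℝ) (j + 1))) := measure_biUnion_finset_le _ _
      _ = _ := by
          apply Finset.sum_congr rfl
          intro j _
          rw [Real.volume_preimage_mul_left (by norm_num)]
          have := volume_shift (j : ℤ)
          push_cast at this
          rw [this]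
  have hcard : ((Finset.range 80).filter (fun j => j / 4 ≠ 3)).card = 76 := by decide
  rw [Finset.sum_const, hcard, nsmul_eq_mul, ← mul_assoc] at h1
  have h2 : ((76 : ℕ) : ENNReal) * ENNReal.ofReal |(80 : ℝ)⁻¹| = ENNReal.ofReal (76 / 80) := by
    rw [← ENNReal.ofReal_natCast, ← ENNReal.ofReal_mul (by positivity)]
    congr 1
    rw [abs_of_pos (by norm_num)]
    norm_num
  rw [h2] at h1
  have hμt : μ ≠ ⊤ := ne_top_of_le_ne_top ENNReal.one_ne_top hfin
  have h3 : μ.toReal ≤ 76 / 80 * μ.toReal := by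
    have := ENNReal.toReal_mono (ENNReal.mul_ne_top ENNReal.ofReal_ne_top hμt) h1
    rwa [ENNReal.toReal_mul, ENNReal.toReal_ofReal (by norm_num)] at this
  have h4 : 0 ≤ μ.toReal := ENNReal.toReal_nonneg
  have h5 : μ.toReal = 0 := by linarith
  rcases (ENNReal.toReal_eq_zero_iff _).mp h5 with h | h
  · exact h
  · exact absurd h hμt

theorem volume_S : volume S = 0 := by
  have h1 : S ⊆ ⋃ n : ℤ, S ∩ Ico (n : ℝ) (n + 1) := by
    intro y hy
    rw [mem_iUnion]
    exact ⟨⌊y⌋, hy, Int.floor_le y, Int.lt_floor_add_one y⟩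
  refine measure_mono_null h1 ?_
  rw [measure_iUnion_null_iff]
  intro n
  rw [volume_shift n, volume_unit]

/-! ### All differences -/

set_option maxRecDepth 100000 in
theorem digit_exists : ∀ ρ : Fin 80, ∃ D : Fin 80, (D : ℕ) / 4 ∈ A ∧ (D : ℕ) % 4 ≤ 2 ∧
    (((D : ℕ) + ρ) % 80) / 4 ∈ A ∧ (((D : ℕ) + ρ) % 80) % 4 ≤ 2 := by
  decide

theorem good_of {n : ℕ} {t : ℝ} {k : ℤ} (h1 : ((n % 80) / 4) ∈ A) (h2 : (n % 80) % 4 ≤ 2)
    (h3 : (n : ℝ) / 80 ≤ t - k) (h4 : t - k < ((n : ℝ) + 2) / 80) : Good t := by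
  refine ⟨(n % 80) / 4, h1, ?_⟩
  obtain ⟨a, ha⟩ : ∃ a, a = (n % 80) / 4 := ⟨_, rfl⟩
  obtain ⟨τ, hτ⟩ : ∃ τ, τ = (n % 80) % 4 := ⟨_, rfl⟩
  obtain ⟨q, hq⟩ : ∃ q, q = n / 80 := ⟨_, rfl⟩
  have hn : n = 80 * q + (4 * a + τ) := by omega
  rw [← ha] at h1 ⊢
  rw [← hτ] at h2
  have ha20 : a < 20 := by
    simp only [A, Finset.mem_insert, Finset.mem_singleton] at h1
    omega
  have ha' : (a : ℝ) ≤ 19 := by
    have : a ≤ 19 := by omega
    exact_mod_cast this
  have ha0 : (0 : ℝ) ≤ a := by positivity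
  have hτ' : (τ : ℝ) ≤ 2 := by exact_mod_cast h2
  have hτ0 : (0 : ℝ) ≤ τ := by positivity
  have hn' : (n : ℝ) = 80 * q + (4 * a + τ) := by exact_mod_cast hn
  rw [hn'] at h3 h4
  have h5 : Int.fract t = t - k - q := by
    rw [Int.fract_eq_iff]
    refine ⟨by linarith, by linarith, k + q, ?_⟩
    push_cast
    ring
  rw [h5]
  constructor <;> linarith

theorem surj (r : ℝ) : ∃ x ∈ E, ∃ y ∈ E, y - x = r := by
  choose D hD using digit_exists
  -- the digits of `r`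
  have hρ : ∀ i : ℕ, ⌊80 * Int.fract (80 ^ i * r)⌋₊ < 80 := by
    intro i
    have h1 := Int.fract_lt_one (80 ^ i * r : ℝ)
    have h0 := Int.fract_nonneg (80 ^ i * r : ℝ)
    rw [Nat.floor_lt (by linarith)]
    push_cast
    linarith
  set ρ : ℕ → Fin 80 := fun i => ⟨⌊80 * Int.fract (80 ^ i * r)⌋₊, hρ i⟩ with hρdef
  set d : ℕ → ℕ := fun i => (D (ρ i) : ℕ) with hd
  have hd80 : ∀ i, (d i : ℝ) ≤ 79 := by
    intro i
    have : d i ≤ 79 := by
      have := (D (ρ i)).isLt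
      simp only [hd]
      omega
    exact_mod_cast this
  have hg : Summable (fun j : ℕ => (79 : ℝ) * (1 / 80) ^ (j + 1)) := by
    have := (summable_geometric_of_lt_one (r := (1 / 80 : ℝ)) (by norm_num) (by norm_num)).mul_left (79 / 80)
    refine this.congr fun j => ?_
    rw [pow_succ]
    ring
  have hgs : ∑' j : ℕ, (79 : ℝ) * (1 / 80) ^ (j + 1) = 1 := by
    have h1 : ∀ j : ℕ, (79 : ℝ) * (1 / 80) ^ (j + 1) = 79 / 80 * (1 / 80) ^ j := by
      intro j
      rw [pow_succ]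
      ring
    simp_rw [h1]
    rw [tsum_mul_left, tsum_geometric_of_lt_one (by norm_num) (by norm_num)]
    norm_num
  have hterm : ∀ i j : ℕ, (d (i + j) : ℝ) * (1 / 80) ^ (j + 1) ≤ 79 * (1 / 80) ^ (j + 1) := by
    intro i j
    exact mul_le_mul_of_nonneg_right (hd80 _) (by positivity)
  have hsum : ∀ i : ℕ, Summable (fun j : ℕ => (d (i + j) : ℝ) * (1 / 80) ^ (j + 1)) := by
    intro i
    exact Summable.of_nonneg_of_le (fun j => by positivity) (hterm i) hg
  set s : ℕ → ℝ := fun i => ∑' j : ℕ, (d (i + j) : ℝ) * (1 / 80) ^ (j + 1) with hs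
  have hs0 : ∀ i, 0 ≤ s i := fun i => tsum_nonneg fun j => by positivity
  have hs1 : ∀ i, s i ≤ 1 := by
    intro i
    rw [← hgs]
    exact (hsum i).tsum_le_tsum (hterm i) hg
  have hrec : ∀ i, 80 * s i = d i + s (i + 1) := by
    intro i
    have h1 := (hsum i).tsum_eq_zero_add
    have h2 : s i = d i * (1 / 80) + ∑' j : ℕ, (d (i + (j + 1)) : ℝ) * (1 / 80) ^ (j + 1 + 1) := by
      simp only [hs]
      rw [h1]
      simp
    have h3 : ∑' j : ℕ, (d (i + (j + 1)) : ℝ) * (1 / 80) ^ (j + 1 + 1) = s (i + 1) * (1 / 80) := by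
      simp only [hs]
      rw [← tsum_mul_right]
      apply tsum_congr
      intro j
      rw [pow_succ _ (j + 1), ← mul_assoc]
      congr 4
      omega
    rw [h2, h3]
    ring
  obtain ⟨N, hN⟩ := exists_nat_gt (|r|)
  have hr1 := abs_le.mp hN.le
  -- multiples of `x`
  have hx : ∀ i : ℕ, ∃ k : ℤ, (80 : ℝ) ^ i * (N + 1 + s 0) - k = s i := by
    intro i
    induction i with
    | zero => exact ⟨N + 1, by push_cast; ring⟩
    | succ i ih =>
      obtain ⟨k, hk⟩ := ih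
      refine ⟨80 * k + d i, ?_⟩
      have h1 := hrec i
      have h2 : (80 : ℝ) ^ (i + 1) * (N + 1 + s 0) = 80 * (80 ^ i * (N + 1 + s 0)) := by ring
      push_cast
      rw [h2]
      linarith
  refine ⟨N + 1 + s 0, ⟨?_, fun i => ?_⟩, N + 1 + s 0 + r, ⟨?_, fun i => ?_⟩, by ring⟩
  · have := hs0 0
    positivity
  · obtain ⟨k, hk⟩ := hx i
    obtain ⟨h1, h2, -, -⟩ := hD (ρ i)
    have h0 := (D (ρ i)).isLt
    have h3 := hrec i
    have h4 := hs0 (i + 1)
    have h5 := hs1 (i + 1)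
    refine good_of (n := d i) (k := k) ?_ ?_ ?_ ?_
    · rw [Nat.mod_eq_of_lt h0]
      exact h1
    · rw [Nat.mod_eq_of_lt h0]
      exact h2
    · rw [hk]
      linarith
    · rw [hk]
      linarith
  · have := hs0 0
    linarith [hr1.1]
  · obtain ⟨k, hk⟩ := hx i
    obtain ⟨-, -, h1, h2⟩ := hD (ρ i)
    have h3 := hrec i
    have h4 := hs0 (i + 1)
    have h5 := hs1 (i + 1)
    have h6 : ((ρ i : ℕ) : ℝ) ≤ 80 * Int.fract (80 ^ i * r) := Nat.floor_le (by
      have := Int.fract_nonneg (80 ^ i * r : ℝ)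
      linarith)
    have h7 : 80 * Int.fract (80 ^ i * r) < ((ρ i : ℕ) : ℝ) + 1 := Nat.lt_floor_add_one _
    have h8 := Int.floor_add_fract (80 ^ i * r : ℝ)
    refine good_of (n := d i + ρ i) (k := k + ⌊(80 ^ i * r : ℝ)⌋) h1 h2 ?_ ?_
    · push_cast
      have h9 : (80 : ℝ) ^ i * (N + 1 + s 0 + r) = 80 ^ i * (N + 1 + s 0) + 80 ^ i * r := by ring
      rw [h9]
      linarith
    · push_cast
      have h9 : (80 : ℝ) ^ i * (N + 1 + s 0 + r) = 80 ^ i * (N + 1 + s 0) + 80 ^ i * r := by ring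
      rw [h9]
      linarith

/-- **Answer: yes.** There is a set `E` of positive reals with `E - E = ℝ` such that
`{2 x - y : x, y ∈ E}` has Lebesgue (outer) measure zero. -/
theorem result : ∃ E : Set ℝ, (∀ x ∈ E, 0 < x) ∧ E - E = univ ∧
    volume {z : ℝ | ∃ x ∈ E, ∃ y ∈ E, z = 2 * x - y} = 0 := by
  refine ⟨E, fun x hx => hx.1, ?_, ?_⟩
  · rw [eq_univ_iff_forall]
    intro r
    obtain ⟨x, hx, y, hy, h⟩ := surj r
    exact Set.mem_sub.mpr ⟨y, hy, x, hx, h⟩
  · refine measure_mono_null ?_ volume_S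
    rintro z ⟨x, hx, y, hy, rfl⟩
    exact phi_subset hx hy

end Pool.Agent.Results.MP_0f2923_nt.NullTwoXMinusY
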